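import Mathlib

/-!
# A partial isometry satisfying the dimension condition which is not embeddable

On `H = (ℓ² ⊕ ℓ²) ⊕ ℂ` let `T (x, y, z) = (y, 0, 0)`. This is a partial isometry with
infinite-dimensional kernel and with range of infinite codimension. If `T = T(1)` for a
`C₀`-semigroup, then `T(t)` leaves `ker T` and `rg T` invariant, so it induces a continuous
one-parameter semigroup on the one-dimensional space `ker T / rg T`, which is never zero;
but `T(1) = T` induces `0`.
-/

set_option autoImplicit false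

open scoped Topology
open Filter

namespace Pool.Agent.Results.MP_d5c8f2_an.KernelModuloRange

/-- `S` (restricted to `t ≥ 0`) is a `C₀`-semigroup on `H`. -/
structure IsC0Semigroup {H : Type*} [NormedAddCommGroup H] [InnerProductSpace ℂ H]
    (S : ℝ → H →L[ℂ] H) : Prop where
  zero : S 0 = 1
  add : ∀ t s : ℝ, 0 ≤ t → 0 ≤ s → S (t + s) = S t * S s
  cont : ∀ x : H, ContinuousOn (fun t => S t x) (Set.Ici 0)

/-- `T` is embeddable: it is the time-one operator of a `C₀`-semigroup. -/
def IsEmbeddable {H : Type*} [NormedAddCommGroup H] [InnerProductSpace ℂ H]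
    (T : H →L[ℂ] H) : Prop :=
  ∃ S : ℝ → H →L[ℂ] H, IsC0Semigroup S ∧ S 1 = T

/-- `T` is a partial isometry: it is isometric on the orthogonal complement of its kernel. -/
def IsPartialIsometry {H : Type*} [NormedAddCommGroup H] [InnerProductSpace ℂ H]
    (T : H →L[ℂ] H) : Prop :=
  ∀ x ∈ (LinearMap.ker T.toLinearMap)ᗮ, ‖T x‖ = ‖x‖

/-- The subspace `M` has dimension `0` or infinite dimension. -/
def ZeroOrInfiniteDim {H : Type*} [NormedAddCommGroup H] [InnerProductSpace ℂ H]
    (M : Submodule ℂ H) : Prop :=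
  M = ⊥ ∨ ¬ FiniteDimensional ℂ M

/-- The square summable sequences. -/
abbrev K : Type := lp (fun _ : ℕ => ℂ) 2

/-- The Hilbert space `(ℓ² ⊕ ℓ²) ⊕ ℂ`. -/
abbrev H : Type := WithLp 2 (WithLp 2 (K × K) × ℂ)

/-- The element `(x, y, z)`. -/
noncomputable def mk (x y : K) (z : ℂ) : H := WithLp.toLp 2 (WithLp.toLp 2 (x, y), z)

/-- The operator `T (x, y, z) = (y, 0, 0)` as a linear map. -/
noncomputable def Tlin : H →ₗ[ℂ] H where
  toFun h := mk h.fst.snd 0 0
  map_add' a b := by
    simp only [mk, ← WithLp.toLp_add, Prod.mk_add_mk, add_zero]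
    rfl
  map_smul' c a := by
    simp only [mk, RingHom.id_apply, ← WithLp.toLp_smul, Prod.smul_mk, smul_zero]
    rfl

theorem norm_mk (x y : K) (z : ℂ) : ‖mk x y z‖ ^ 2 = ‖x‖ ^ 2 + ‖y‖ ^ 2 + ‖z‖ ^ 2 := by
  rw [mk, WithLp.prod_norm_sq_eq_of_L2, WithLp.prod_norm_sq_eq_of_L2]
  rfl

theorem eq_mk (h : H) : h = mk h.fst.fst h.fst.snd h.snd := rfl

theorem Tlin_norm (h : H) : ‖Tlin h‖ ≤ 1 * ‖h‖ := by
  have h1 : ‖Tlin h‖ ^ 2 ≤ ‖h‖ ^ 2 := by
    have e : Tlin h = mk h.fst.snd 0 0 := rfl
    rw [e, norm_mk]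
    conv_rhs => rw [eq_mk h, norm_mk]
    have a1 := sq_nonneg ‖h.fst.fst‖
    have a2 := sq_nonneg ‖h.snd‖
    simp
    linarith
  rw [one_mul]
  exact (pow_le_pow_iff_left₀ (norm_nonneg _) (norm_nonneg _) two_ne_zero).1 h1

/-- The operator `T (x, y, z) = (y, 0, 0)`. -/
noncomputable def T : H →L[ℂ] H := Tlin.mkContinuous 1 Tlin_norm

theorem T_apply (h : H) : T h = mk h.fst.snd 0 0 := rfl

theorem T_eq_zero_iff (h : H) : T h = 0 ↔ h.fst.snd = 0 := by
  rw [T_apply]
  constructor
  · intro h1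
    have : ‖mk h.fst.snd 0 0‖ ^ 2 = 0 := by rw [h1]; simp
    rw [norm_mk] at this
    simpa using this
  · intro h1
    rw [h1]
    rfl

theorem partialIsometry : IsPartialIsometry T := by
  intro h hh
  have h1 : inner ℂ (mk h.fst.fst 0 h.snd) h = 0 := by
    apply hh
    rw [LinearMap.mem_ker]
    exact (T_eq_zero_iff _).2 rfl
  have h2 : inner ℂ (mk h.fst.fst 0 h.snd) h
      = inner ℂ h.fst.fst h.fst.fst + inner ℂ h.snd h.snd := by
    rw [mk, WithLp.prod_inner_apply, WithLp.prod_inner_apply]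
    simp
  rw [h1, inner_self_eq_norm_sq_to_K, inner_self_eq_norm_sq_to_K] at h2
  have h3 : ‖h.fst.fst‖ ^ 2 + ‖h.snd‖ ^ 2 = 0 := by
    have h5 := h2.symm
    have h6 : ((‖h.fst.fst‖ ^ 2 + ‖h.snd‖ ^ 2 : ℝ) : ℂ) = 0 := by
      push_cast
      exact h5
    exact Complex.ofReal_eq_zero.1 h6
  have h4 : ‖T h‖ ^ 2 = ‖h‖ ^ 2 := by
    rw [T_apply, norm_mk]
    conv_rhs => rw [eq_mk h, norm_mk]
    simp
    linarith
  exact (pow_left_inj₀ (norm_nonneg _) (norm_nonneg _) two_ne_zero).1 h4

theorem K_infinite : ¬ FiniteDimensional ℂ K := by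
  intro hfin
  have ho : Orthonormal ℂ (fun n : ℕ => (lp.single 2 n (1 : ℂ) : K)) := by
    rw [orthonormal_iff_ite]
    intro i j
    rw [lp.inner_single_left]
    by_cases hij : i = j
    · subst hij
      simp
    · rw [if_neg hij, lp.single_apply_ne _ _ _ hij]
      simp
  have := ho.linearIndependent.finite
  exact not_finite ℕ

/-- The embedding of `ℓ²` into the kernel. -/
noncomputable def emb1 : K →ₗ[ℂ] LinearMap.ker T.toLinearMap where
  toFun x := ⟨mk x 0 0, (T_eq_zero_iff _).2 rfl⟩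
  map_add' a b := by
    ext1
    simp only [mk, Submodule.coe_add, ← WithLp.toLp_add, Prod.mk_add_mk, add_zero]
  map_smul' c a := by
    ext1
    simp only [mk, RingHom.id_apply, Submodule.coe_smul, ← WithLp.toLp_smul, Prod.smul_mk,
      smul_zero]

/-- The embedding of `ℓ²` into the orthogonal complement of the range. -/
noncomputable def emb2 : K →ₗ[ℂ] (LinearMap.range T.toLinearMap)ᗮ where
  toFun y := ⟨mk 0 y 0, by
    rintro _ ⟨h, rfl⟩
    show inner ℂ (T h) (mk 0 y 0) = 0
    rw [T_apply, mk, mk, WithLp.prod_inner_apply, WithLp.prod_inner_apply]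
    simp⟩
  map_add' a b := by
    ext1
    simp only [mk, Submodule.coe_add, ← WithLp.toLp_add, Prod.mk_add_mk, add_zero]
  map_smul' c a := by
    ext1
    simp only [mk, RingHom.id_apply, Submodule.coe_smul, ← WithLp.toLp_smul, Prod.smul_mk,
      smul_zero]

theorem ker_infinite : ¬ FiniteDimensional ℂ (LinearMap.ker T.toLinearMap) := by
  intro hfin
  apply K_infinite
  refine FiniteDimensional.of_injective emb1 fun a b hab => ?_
  have h1 : mk a 0 0 = mk b 0 0 := congrArg Subtype.val hab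
  have h2 : (mk a 0 0).fst.fst = (mk b 0 0).fst.fst := by rw [h1]
  exact h2

theorem ran_infinite : ¬ FiniteDimensional ℂ (LinearMap.range T.toLinearMap)ᗮ := by
  intro hfin
  apply K_infinite
  refine FiniteDimensional.of_injective emb2 fun a b hab => ?_
  have h1 : mk 0 a 0 = mk 0 b 0 := congrArg Subtype.val hab
  have h2 : (mk 0 a 0).fst.snd = (mk 0 b 0).fst.snd := by rw [h1]
  exact h2

theorem not_embeddable : ¬ IsEmbeddable T := by
  rintro ⟨S, hS, hS1⟩
  have hcomm : ∀ t, 0 ≤ t → ∀ h, T (S t h) = S t (T h) := by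
    intro t ht h
    have h1 : S 1 * S t = S t * S 1 := by
      rw [← hS.add 1 t zero_le_one ht, ← hS.add t 1 ht zero_le_one, add_comm]
    rw [← hS1]
    exact DFunLike.congr_fun h1 h
  set e : H := mk 0 0 1 with he
  have hTe : T e = 0 := (T_eq_zero_iff _).2 rfl
  set s : ℝ → ℂ := fun t => (S t e).snd with hs
  have hdec : ∀ t, 0 ≤ t → S t e = s t • e + T (mk 0 (S t e).fst.fst 0) := by
    intro t ht
    have h1 : (S t e).fst.snd = 0 := by
      rw [← T_eq_zero_iff, hcomm t ht, hTe, map_zero]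
    conv_lhs => rw [eq_mk (S t e), h1]
    rw [T_apply, he, mk, mk, mk, ← WithLp.toLp_smul, ← WithLp.toLp_add]
    simp [hs, ← WithLp.toLp_smul, ← WithLp.toLp_add]
    exact ⟨rfl, rfl⟩
  have hmul : ∀ t t', 0 ≤ t → 0 ≤ t' → s (t' + t) = s t' * s t := by
    intro t t' ht ht'
    have h1 : S (t' + t) e = s t • S t' e + T (S t' (mk 0 (S t e).fst.fst 0)) := by
      rw [hS.add t' t ht' ht, hcomm t' ht', ← map_smul, ← map_add, ← hdec t ht]
      rfl
    have h2 : s (t' + t) = (s t • S t' e + T (S t' (mk 0 (S t e).fst.fst 0))).snd := by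
      rw [← h1]
    rw [h2]
    have h3 : (s t • S t' e + T (S t' (mk 0 (S t e).fst.fst 0))).snd
        = s t • (S t' e).snd + (T (S t' (mk 0 (S t e).fst.fst 0))).snd := rfl
    have h4 : (T (S t' (mk 0 (S t e).fst.fst 0))).snd = 0 := rfl
    rw [h3, h4, add_zero, smul_eq_mul, mul_comm]
  have hs0 : s 0 = 1 := by
    rw [hs]
    simp only
    rw [hS.zero]
    rfl
  have hs1 : s 1 = 0 := by
    rw [hs]
    simp only
    rw [hS1, hTe]
    rfl
  have hhalf : ∀ n : ℕ, s ((1 / 2) ^ n) = 0 := by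
    intro n
    induction n with
    | zero => simpa using hs1
    | succ n ih =>
      have hp : (0 : ℝ) ≤ (1 / 2) ^ (n + 1) := by positivity
      have h1 := hmul _ _ hp hp
      have h2 : ((1 / 2 : ℝ)) ^ (n + 1) + (1 / 2) ^ (n + 1) = (1 / 2) ^ n := by
        rw [pow_succ]
        ring
      rw [h2, ih] at h1
      exact mul_self_eq_zero.1 h1.symm
  have hcont : ContinuousWithinAt s (Set.Ici 0) 0 := by
    have h1 : ContinuousWithinAt (fun t => S t e) (Set.Ici 0) 0 := hS.cont e 0 (by simp)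
    have h2 : Continuous (fun h : H => h.snd) := WithLp.continuous_snd 2 _ _
    exact h2.continuousAt.comp_continuousWithinAt h1
  have hlim : Tendsto (fun n : ℕ => ((1 / 2 : ℝ)) ^ n) atTop (𝓝[Set.Ici 0] 0) := by
    apply tendsto_nhdsWithin_of_tendsto_nhds_of_eventually_within
    · exact tendsto_pow_atTop_nhds_zero_of_lt_one (by norm_num) (by norm_num)
    · exact Filter.Eventually.of_forall fun n => by
        show (0 : ℝ) ≤ (1 / 2) ^ n
        positivity
  have h1 := hcont.tendsto.comp hlim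
  have h2 : (s ∘ fun n : ℕ => ((1 / 2 : ℝ)) ^ n) = fun _ => 0 := by
    funext n
    exact hhalf n
  rw [h2, hs0] at h1
  exact one_ne_zero (tendsto_nhds_unique h1 tendsto_const_nhds)

/-- There are a complex Hilbert space `H` and a partial isometry `T` on `H` such that `ker T` and
the orthogonal complement of the range of `T` are both infinite-dimensional (in particular of
dimension zero or infinite), and such that `T` is not embeddable. -/
theorem result : ∃ (H : Type) (_ : NormedAddCommGroup H) (_ : InnerProductSpace ℂ H)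
    (_ : CompleteSpace H) (T : H →L[ℂ] H),
    IsPartialIsometry T ∧
    ZeroOrInfiniteDim (LinearMap.ker T.toLinearMap) ∧
    ZeroOrInfiniteDim (LinearMap.range T.toLinearMap)ᗮ ∧
    ¬ IsEmbeddable T :=
  ⟨H, inferInstance, inferInstance, inferInstance, T, partialIsometry, Or.inr ker_infinite,
    Or.inr ran_infinite, not_embeddable⟩

end Pool.Agent.Results.MP_d5c8f2_an.KernelModuloRange
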